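import Pool.Agent.Zk98.LE
import Pool.Agent.Results.MP_e9eb55_nt.AlmostAllN

/-!
# The diagonal Moebius-twisted Elliott-Halberstam bound along chains of divisors and of multiplicative orders

There is one set `E` off which the diagonal Moebius-twisted Elliott-Halberstam bound holds at all levels `n^θ`, `θ < 1`, and
even at the levels `n exp (- (log n)^c)`, such that for all `m ≤ N` but `N / (log N)^U`, for every `U`, no element of `E` is

* a divisor `≥ exp ((log m)^c)` of a positive integer within `(1 + log m)^R` of `m`, for any fixed `c > 0` and `R`,
* if `m = p` is a prime, the order modulo `p` of an integer `a` with `2 ≤ |a| ≤ p^c`, `c < 1`,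
* within `(1 + log w)^W` of `G w` for any such number `w`, `G` with steps `≥ a > 0` and growth at most linear,
* obtained from `m` by any composition of these operations with each other, with additive functions, the largest prime factor
  and other functions dominated by the largest prime factor, and with functions taking small values rarely, for example: the
  divisors `≥ exp ((log m)^c)` of `q - 1` and the orders modulo `q` of all `a` with `2 ≤ |a| ≤ q^c`, for all prime divisors
  `q ≥ exp ((log m)^c)` of `m` (and so on: divisors of `r - 1` for the prime divisors `r` of `q - 1`).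

The starting theorem `AlmostAllN` gives a set `E` with a saving of every power of the logarithm. The starting theorem
`AdditiveValues` treats functions dominated by the largest prime factor. Here every `m` has many divisors and there are `p^c`
bases `a`, and ALL the values are outside of `E`.

Proof. A set with a saving of every power of the logarithm has only `N / (log N)^A` multiples (or numbers near multiples)
`m ≤ N` of its elements `w ≥ exp ((log N)^c)`, by summation by parts; primes `p` for which `w` is an order are `1` modulo `w`,
and only few primes have an integer `a` of small order. The class of set valued functions along which such sets remain such is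
closed under compositions (`Pool/Agent/Zk98/LD`, `LE`).
-/

set_option autoImplicit false

namespace Pool.Agent.Results.MP_e9eb55_nt.DivisorAndOrderChains

open Finset
open Pool.Agent.N375.AV (logThin_of)
open Pool.Agent.Zk98.LD (Chain)
open Pool.Agent.Results.MP_e9eb55_nt.AlmostAllN (disc g₁ g₂)

/-- **dEH along chains of divisors and orders.** There is a set `E` such that: (1) for every chain `F` (a set valued function
composed of divisors, orders modulo primes, windows, values of functions dominated by the largest prime factor, and small
values taken rarely), every `U` and all large `N`, for all `m ≤ N` but `N / (log N)^U` NO element of `F m` is in `E`; (2), (3)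
for `n` off `E` the bounds `D_g(n; θ) ≤ n (log n)^(-A)`, `θ < 1`, and the same bounds at the levels `n exp (- (log n)^c)` hold
for both weights `g`, for all `n ≥ n₀` where `n₀` only depends on `θ`, `A` (on `c`, `A`). -/
theorem result : ∃ E : Set ℕ,
    (∀ F : ℕ → Set ℕ, Chain F → ∀ U : ℕ, ∃ N₀ : ℕ, ∀ N : ℕ, N₀ ≤ N →
      ({m : ℕ | 1 ≤ m ∧ m ≤ N ∧ ∃ n ∈ F m, n ∈ E}.ncard : ℝ) ≤ N / Real.log N ^ U) ∧
    (∀ θ : ℝ, 0 < θ → θ < 1 → ∀ A : ℝ, 0 < A → ∃ n₀ : ℕ, ∀ n : ℕ, n₀ ≤ n → n ∉ E →
      ∀ g : ℕ → ℝ, (g = g₁ ∨ g = g₂) → disc g n ((n : ℝ) ^ θ) ≤ n * Real.log n ^ (-A)) ∧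
    (∀ c : ℝ, 0 < c → ∀ A : ℝ, 0 < A → ∃ n₀ : ℕ, ∀ n : ℕ, n₀ ≤ n → n ∉ E →
      ∀ g : ℕ → ℝ, (g = g₁ ∨ g = g₂) → disc g n (n * Real.exp (-(Real.log n) ^ c)) ≤ n * Real.log n ^ (-A)) := by
  obtain ⟨E, h1, h2, h3⟩ := Pool.Agent.Results.MP_e9eb55_nt.AlmostAllN.result
  exact ⟨E, fun F hF U => hF.count (logThin_of (fun B => by
      obtain ⟨X₀, hX₀⟩ := h1 B
      refine ⟨X₀, fun X hX => le_trans (le_of_eq ?_) (hX₀ X hX)⟩
      congr!)) U, h2, h3⟩

end Pool.Agent.Results.MP_e9eb55_nt.DivisorAndOrderChains
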