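import Pool.Agent.Results.MP_e9eb55_nt.AlmostAllN
import Pool.Agent.Zk46.LL.B7

/-!
# The limit of the level in the diagonal Möbius-twisted Elliott-Halberstam conjecture, for every `N`

The conjecture is about the levels `N ^ θ`, `θ < 1`. At the levels `N / (log N) ^ B` the bound is false, for EVERY large `N`,
both weights and every `B`: the discrepancy is at least `N / (log N) ^ (2 B + 13)`, so it does not save more than this power of
the logarithm. (The starting file `AlmostAllN` shows that at the levels `N exp (-(log N) ^ c)`, `c > 0`, all powers of the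
logarithm are saved, for almost all `N`; so this is the right place of the transition.)

Second, the discrepancy at ANY level `Q ≥ 25 (log N) ^ 4` controls the sum `∑_{n < N} Λ(n) g(N - n)` over all `n < N`, up to
the factor `25 (log N) ^ 4`, and so, up to powers of the logarithm, it is equal to the sum without the main terms.

Proof. If exactly the multiples `q, 2 q, ..., y q` of `q` are smaller than `N`, then `μ(q)` times the sum for the modulus `q` is
a sum over `m ≤ y` of `μ(m)` times the characteristic function of the numbers `N - q m` prime, `q m` squarefree. By the theorem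
of Siegel and Walfisz the mean values over `q` of these are given by densities `κ(m)` which do not depend on `y`; the main terms
`∑_{m ≤ y} μ(m) m κ(m)` for `y = l` and for `y = l - 1`, where `l` is a prime which does not divide `N`, differ by `l κ(l) ≥ 1/10`,
so one of them is large. For the squares `q = r ^ 2` of primes the sum is zero and the main term alone remains.
-/

set_option autoImplicit false

namespace Pool.Agent.Results.MP_e9eb55_nt.LevelLimit

open Finset
open AlmostAllN (g₁ g₂ twistedSum disc)

/-- the sum over the moduli `1 ≤ q ≤ Q` coprime to `N` of the absolute value of `twistedSum g q N`, without main terms -/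
noncomputable def hom (g : ℕ → ℝ) (N : ℕ) (Q : ℝ) : ℝ :=
  ∑ q ∈ (Finset.Icc 1 ⌊Q⌋₊).filter (fun q => q.Coprime N), |twistedSum g q N|

/-- **Theorem.** (1) For every `B`, all large `N` and both weights `g`, the discrepancy `D_g` at the level `N / (log N) ^ B` is
at least `N / (log N) ^ (2 B + 13)`. (2) For all large `N`, both weights and all levels `25 (log N) ^ 4 ≤ Q ≤ N` the sum over
all `n < N` is at most `25 (log N) ^ 4` times the discrepancy at the level `Q`, and the sum of the absolute values of the
twisted sums for the moduli up to `Q`, without main terms, is equal to the discrepancy up to factors `(log N) ^ 7` and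
`(log N) ^ 3`. -/
theorem result :
    (∀ B : ℕ, ∃ N₀ : ℕ, ∀ N : ℕ, N₀ ≤ N → ∀ g : ℕ → ℝ, (g = g₁ ∨ g = g₂) →
      (N : ℝ) / Real.log N ^ (2 * B + 13) ≤ disc g N (N / Real.log N ^ B)) ∧
    (∃ N₀ : ℕ, ∀ N : ℕ, N₀ ≤ N → ∀ g : ℕ → ℝ, (g = g₁ ∨ g = g₂) → ∀ Q : ℝ, 25 * Real.log N ^ 4 ≤ Q → Q ≤ N →
      |twistedSum g 1 N| ≤ 25 * Real.log N ^ 4 * disc g N Q ∧
      hom g N Q ≤ Real.log N ^ 7 * disc g N Q ∧ disc g N Q ≤ Real.log N ^ 3 * hom g N Q) :=
  ⟨fun B => Pool.Agent.Zk46.LL.main B, Pool.Agent.Zk46.LL.hom⟩

end Pool.Agent.Results.MP_e9eb55_nt.LevelLimit
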