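import Pool.Agent.Zk8.LR.G
import Pool.Agent.Results.MP_e9eb55_nt.AlmostAllN

/-!
# The diagonal Moebius-twisted Elliott-Halberstam bound along ranks of apparition of primes in Lucas sequences

There is one set `E` off which the diagonal Moebius-twisted Elliott-Halberstam bound holds at all levels `n^θ`, `θ < 1`, and
even at the levels `n exp (- (log n)^c)`, such that for all `m ≤ N` but `N / (log N)^U`, for every `U`, no element of `E` is
obtained from `m` by a chain of operations at least one of which is

* if `v = p` is a prime: the rank of apparition of `p` in ANY nondegenerate Lucas sequence `U_0 = 0`, `U_1 = 1`,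
  `U_(n+2) = P U_(n+1) - Q U_n` with parameters `|P|, |Q| ≤ p^c`, `c < 1 / 2` (`c < 1` if `Q` is `1` or `-1`),
* if `v = p` is a prime: the order modulo `p` of ANY `A` in `GL_2(Z)` of infinite order, not scalar modulo `p`, with
  `|tr A| ≤ p^c`, `c < 1` (periods of hyperbolic toral automorphisms, Pisano periods).

The other operations are those of the chains of divisors and of multiplicative orders (divisors `≥ exp ((log v)^c)` of the
positive integers within `(1 + log v)^R` of `v`, windows around the values of functions of linear growth, and so on). For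
example, for almost all `m`: for ALL prime divisors `q ≥ exp ((log m)^c)` of `m` and ALL ranks of apparition `w` of `q`, no
number within `(1 + log w)^W` of `w` and no divisor `≥ exp ((log w)^c)` of `w` is in `E`.

Proof. There are at most `N^(1-δ)` primes `p ≤ N` with a small rank of apparition in one of the Lucas sequences (as the product
of the first terms of all these sequences is not too large), and the primes for which `w` is a rank of apparition are congruent
to `1`, `0` or `- 1` modulo `w`; orders of matrices are `w`, `2 w` or `4 w`. So ranks of apparition are functions to which the composition principle for sets with a saving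
of every power of the logarithm (`Pool/Agent/Zk98/LD`, `LE`) applies.
-/

set_option autoImplicit false

namespace Pool.Agent.Results.MP_e9eb55_nt.LucasRankChains

open Finset
open Pool.Agent.N375.AV (logThin_of)
open Pool.Agent.Zk8.LR (RankChain)
open Pool.Agent.Results.MP_e9eb55_nt.AlmostAllN (disc g₁ g₂)

/-- **dEH along chains with ranks of apparition.** There is a set `E` such that: (1) for every chain `F` with a rank step, every
`U` and all large `N`, for all `m ≤ N` but `N / (log N)^U` NO element of `F m` is in `E`; (2), (3) for `n` off `E` the bounds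
`D_g(n; θ) ≤ n (log n)^(-A)`, `θ < 1`, and the same bounds at the levels `n exp (- (log n)^c)` hold for both weights `g`, for
all `n ≥ n₀` where `n₀` only depends on `θ`, `A` (on `c`, `A`). -/
theorem result : ∃ E : Set ℕ,
    (∀ F : ℕ → Set ℕ, RankChain F → ∀ U : ℕ, ∃ N₀ : ℕ, ∀ N : ℕ, N₀ ≤ N →
      ({m : ℕ | 1 ≤ m ∧ m ≤ N ∧ ∃ n ∈ F m, n ∈ E}.ncard : ℝ) ≤ N / Real.log N ^ U) ∧
    (∀ θ : ℝ, 0 < θ → θ < 1 → ∀ A : ℝ, 0 < A → ∃ n₀ : ℕ, ∀ n : ℕ, n₀ ≤ n → n ∉ E →
      ∀ g : ℕ → ℝ, (g = g₁ ∨ g = g₂) → disc g n ((n : ℝ) ^ θ) ≤ n * Real.log n ^ (-A)) ∧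
    (∀ c : ℝ, 0 < c → ∀ A : ℝ, 0 < A → ∃ n₀ : ℕ, ∀ n : ℕ, n₀ ≤ n → n ∉ E →
      ∀ g : ℕ → ℝ, (g = g₁ ∨ g = g₂) → disc g n (n * Real.exp (-(Real.log n) ^ c)) ≤ n * Real.log n ^ (-A)) := by
  obtain ⟨E, h1, h2, h3⟩ := Pool.Agent.Results.MP_e9eb55_nt.AlmostAllN.result
  exact ⟨E, fun F hF U => hF.count (logThin_of (fun B => by
      obtain ⟨X₀, hX₀⟩ := h1 B
      refine ⟨X₀, fun X hX => le_trans (le_of_eq ?_) (hX₀ X hX)⟩
      congr!)) U, h2, h3⟩

end Pool.Agent.Results.MP_e9eb55_nt.LucasRankChains
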