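import Pool.Agent.Results.MP_e9eb55_nt.AlmostAllN
import Pool.Agent.Zk46.PV.A8

/-!
# The diagonal Möbius-twisted Elliott-Halberstam bound around almost all values of a polynomial

Let `f` be a polynomial with rational coefficients, of degree `d ≥ 2`, with a positive leading coefficient and with integer
values at the natural numbers (`n ^ 2`, `n ^ 3 + n`, `n (n + 1) / 2`, ...). For every level `θ < 1 / d` the bound
`D_g(N; θ) ≤ N (log N) ^ (-A)` holds, for all `n` in `(x, 2 x]` but `x / (log x) ^ B`, for both weights and ALL `N` in the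
window of half length `(log x) ^ W` around `c₀ + f(n)`, and this for arbitrary integers `c₀` between `- f(x) / 4` and `K f(x)`.
The values of `f` are a set of about `X ^ (1 / d)` integers up to `X`.

Proof. For the modulus `q` the numbers `n` are split into the classes modulo `D q`, where `D` is a denominator of `f`; for `n`
in one class the twisted sum is the additive convolution of the quotients, of a prime factor and a Möbius factor, at the
quotient of `f(n)`. Cauchy-Schwarz for the classes and two frequencies separates the primes from the Möbius factor and the Weyl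
sums of the class; the Weyl sums are bounded in mean square over the classes by van der Corput differencing with differences
divisible by `q`, which leaves few frequencies, and there Davenport's bound for the Möbius factor is used.
-/

set_option autoImplicit false

namespace Pool.Agent.Results.MP_e9eb55_nt.PolynomialValues

open Finset Polynomial
open AlmostAllN (g₁ g₂ disc)

/-- The diagonal bound holds for both weights, all the moduli up to `N ^ θ` and the saving `(log N) ^ A`, for ALL natural
numbers `N` with `|N - v| ≤ w`. -/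
def Near (A : ℕ) (θ w v : ℝ) : Prop :=
  ∀ N : ℕ, |(N : ℝ) - v| ≤ w → ∀ g : ℕ → ℝ, (g = g₁ ∨ g = g₂) → disc g N ((N : ℝ) ^ θ) ≤ N / Real.log N ^ A

open Classical in
/-- **Theorem.** Let `f` be a polynomial with rational coefficients, of degree at least two and with a positive leading
coefficient, which takes integer values at the natural numbers, and let `0 < θ < 1 / deg f`. For all `A, W, B, K`, for large
`x` and every integer `c₀` with `-f(x) / 4 ≤ c₀ ≤ K f(x)`: for all but `x / (log x) ^ B` of the `n` in `(x, 2x]` the diagonal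
bound of level `θ` with the saving `(log N) ^ A` holds for both weights and for ALL natural numbers `N` with
`|N - (c₀ + f(n))| ≤ (log x) ^ W`. -/
theorem result (f : ℚ[X]) (hd : 2 ≤ f.natDegree) (hl : 0 < f.leadingCoeff)
    (hf : ∀ n : ℕ, ∃ z : ℤ, f.eval (n : ℚ) = z) (θ : ℝ) (hθ : 0 < θ) (hθ1 : θ < 1 / f.natDegree) (A W B K : ℕ) :
    ∃ x₀ : ℕ, ∀ x : ℕ, x₀ ≤ x → ∀ c₀ : ℤ, -((f.eval (x : ℚ) : ℚ) : ℝ) / 4 ≤ c₀ →
      (c₀ : ℝ) ≤ K * ((f.eval (x : ℚ) : ℚ) : ℝ) →
      (((Ioc x (2 * x)).filter fun n : ℕ =>
        ¬ Near A θ (Real.log x ^ W) ((c₀ : ℝ) + ((f.eval (n : ℚ) : ℚ) : ℝ))).card : ℝ) ≤ x / Real.log x ^ B := by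
  obtain ⟨x₀, hx₀⟩ := Pool.Agent.Zk46.PV.poly_main f hd hl hf θ hθ hθ1 A W B K
  refine ⟨x₀, fun x hx c₀ h1 h2 => ?_⟩
  refine le_trans ?_ (hx₀ x hx c₀ h1 h2)
  have hsub : ((Ioc x (2 * x)).filter fun n : ℕ =>
      ¬ Near A θ (Real.log x ^ W) ((c₀ : ℝ) + ((f.eval (n : ℚ) : ℚ) : ℝ))) ⊆
      (Ioc x (2 * x)).filter fun n : ℕ => ∃ N : ℕ, |(N : ℝ) - (c₀ + ((f.eval (n : ℚ) : ℚ) : ℝ))| ≤ Real.log x ^ W ∧
        Pool.Agent.N193.DE.Bad A θ N := by
    intro n hn
    rw [mem_filter] at hn ⊢
    refine ⟨hn.1, ?_⟩
    by_contra hcon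
    apply hn.2
    intro N hN g hg
    by_contra hlt
    exact hcon ⟨N, hN, g, hg, not_le.1 hlt⟩
  exact_mod_cast card_le_card hsub

end Pool.Agent.Results.MP_e9eb55_nt.PolynomialValues
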